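import Pool.Agent.BSI.Stmts

/-!
# Squad BSI, row HI2 (helper91)

The generator hits all products of cheap polynomials.
-/

set_option autoImplicit false

namespace Pool.Agent.BSI.H91

open MvPolynomial Pool.Agent.Helper78_ACIT Pool.Agent.BSH

section
variable {E : Type} [Field E] {A A' : Type} [CommRing A] [Algebra E A] [CommRing A'] [Algebra E A']

theorem eqOn_sp (φ ψ : A →ₐ[E] A') (B : Set A) (l : List A) (hB : ∀ x ∈ B, φ x = ψ x)
    (hl : ∀ x ∈ l, φ x = ψ x) : ∀ x ∈ sp E B l, φ x = ψ x := by
  intro x hx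
  unfold sp at hx
  refine Submodule.span_induction ?_ ?_ ?_ ?_ hx
  · rintro y ((hy | hy) | hy)
    · have : y = 1 := hy
      rw [this, map_one, map_one]
    · exact hB y hy
    · exact hl y hy
  · rw [map_zero, map_zero]
  · intro y z _ _ h1 h2
    rw [map_add, map_add, h1, h2]
  · intro c y _ h1
    rw [map_smul, map_smul, h1]

theorem eqOn_ch (φ ψ : A →ₐ[E] A') (B : Set A) (hB : ∀ x ∈ B, φ x = ψ x) :
    ∀ l : List A, Ch E B l → ∀ x ∈ l, φ x = ψ x := by
  intro l
  induction l with
  | nil => intro _ x hx; simp at hx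
  | cons g l ih =>
    rintro ⟨h1, a, ha, b, hb, hg⟩ x hx
    have h2 := ih h1
    rcases List.mem_cons.mp hx with h3 | h3
    · rw [h3, hg, map_mul, map_mul, eqOn_sp φ ψ B l hB h2 a ha, eqOn_sp φ ψ B l hB h2 b hb]
    · exact h2 x h3

end

theorem eq_of_cheap {E : Type} [Field E] {A' : Type} [CommRing A'] [Algebra E A']
    (φ ψ : MvPolynomial ℕ E →ₐ[E] A') (n s : ℕ) (F : MvPolynomial ℕ E) (hF : IsCheap E n s F)
    (h : ∀ i < n, φ (X i) = ψ (X i)) : φ F = ψ F := by
  obtain ⟨l, _, h1, h2⟩ := hF
  have hB : ∀ x ∈ vs E n, φ x = ψ x := by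
    rintro x ⟨i, hi, rfl⟩
    exact h i hi
  exact eqOn_sp φ ψ _ l hB (eqOn_ch φ ψ _ hB l h1) F h2

theorem pt_map {A A' : Type} [CommRing A] [CommRing A'] (φ : A →+* A') (r q C : ℕ) (t : ℕ → A)
    (i : ℕ) : φ (pt r q C t i) = pt r q C (fun m => φ (t m)) i := by
  unfold pt
  by_cases h1 : i < 4 * r
  · rw [if_pos h1, if_pos h1]
  · rw [if_neg h1, if_neg h1]
    by_cases h2 : i < 4 * r + r * C
    · rw [if_pos h2, if_pos h2, map_sum]
      apply Finset.sum_congr rfl
      intro m _
      simp
    · rw [if_neg h2, if_neg h2, map_zero]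

theorem pt_ext {A : Type} [CommRing A] (r q C : ℕ) (x : ℕ → A) :
    pt r q C (ext (fun j : Fin (4 * r) => x j)) = pt r q C x := by
  funext i
  unfold pt
  by_cases h1 : i < 4 * r
  · rw [if_pos h1, if_pos h1]
    unfold Pool.Agent.BSH.ext
    rw [dif_pos h1]
  · rw [if_neg h1, if_neg h1]
    by_cases h2 : i < 4 * r + r * C
    · rw [if_pos h2, if_pos h2]
      apply Finset.sum_congr rfl
      intro m hm
      unfold Pool.Agent.BSH.ext
      rw [dif_pos (Finset.mem_range.mp hm)]
    · rw [if_neg h2, if_neg h2]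

theorem mix_eq_pt {E : Type} [Field E] (r q C s : ℕ) (e : ℕ → E) (F : MvPolynomial ℕ E)
    (hF : IsCheap E (4 * r + r * C) s F) :
    mix (4 * r) r (2 ^ q) C (va E) e F = (aeval (pt r q C X) F : MvPolynomial ℕ E) := by
  apply eq_of_cheap _ _ _ _ _ hF
  intro i hi
  unfold mix pt va
  rw [aeval_X, aeval_X]
  by_cases h1 : i < 4 * r
  · rw [if_pos h1, if_pos h1]
  · rw [if_neg h1, if_neg h1, if_pos hi, if_pos hi]
    apply Finset.sum_congr rfl
    intro m _
    rw [← pow_mul]
    simp

theorem hi2 (stg : StgStmt) : Hi2Stmt := by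
  intro E _ _ r q C s L hr hnum hL hne
  have h1 : (aeval (pt r q C X) L.prod : MvPolynomial ℕ E) ≠ 0 := by
    rw [map_list_prod]
    apply List.prod_ne_zero
    intro h0
    rw [List.mem_map] at h0
    obtain ⟨F, hF, hF0⟩ := h0
    have hFne : F ≠ 0 := fun h => hne (List.prod_eq_zero (h ▸ hF))
    obtain ⟨e, he⟩ : ∃ e : ℕ → E, eval e F ≠ 0 := by
      by_contra hcon
      push Not at hcon
      apply hFne
      apply MvPolynomial.funext
      intro y
      rw [hcon y, map_zero]
    have hmix : ∀ c ≤ C, mix (4 * r) r (2 ^ q) c (va E) e F ≠ 0 := by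
      intro c
      induction c with
      | zero =>
        intro _ h2
        apply he
        have h3 : eval e (mix (4 * r) r (2 ^ q) 0 (va E) e F) = eval e F := by
          have h4 : (eval e).comp (mix (4 * r) r (2 ^ q) 0 (va E) e).toRingHom = eval e := by
            apply MvPolynomial.ringHom_ext
            · intro c
              simp [mix]
            · intro i
              simp only [mix, AlgHom.toRingHom_eq_coe, RingHom.coe_comp, RingHom.coe_coe,
                Function.comp_apply, aeval_X, Nat.mul_zero, Nat.add_zero]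
              by_cases h5 : i < 4 * r
              · rw [if_pos h5]
              · rw [if_neg h5, if_neg h5]
                simp
          exact RingHom.congr_fun h4 F
        rw [← h3, h2, map_zero]
      | succ c ih =>
        intro hc
        apply stg E r q c s (4 * r + r * C) e F hr _ (hL F hF) (ih (by omega))
        have h5 : 5 * r * c + 5 * r ≤ 5 * r * C := by
          calc 5 * r * c + 5 * r = 5 * r * (c + 1) := by ring
            _ ≤ 5 * r * C := Nat.mul_le_mul_left _ hc
        omega
    exact hmix C le_rfl (by rw [mix_eq_pt r q C s e F (hL F hF)]; exact hF0)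
  obtain ⟨x, hx⟩ : ∃ x : ℕ → E, eval x (aeval (pt r q C X) L.prod : MvPolynomial ℕ E) ≠ 0 := by
    by_contra hcon
    push Not at hcon
    apply h1
    apply MvPolynomial.funext
    intro y
    rw [hcon y, map_zero]
  refine ⟨fun j => x j, ?_⟩
  have h2 : ∀ P : MvPolynomial ℕ E, eval x (aeval (pt r q C X) P : MvPolynomial ℕ E)
      = eval (pt r q C x) P := by
    intro P
    have h4 : (eval x).comp (aeval (pt r q C X) :
        MvPolynomial ℕ E →ₐ[E] MvPolynomial ℕ E).toRingHom = eval (pt r q C x) := by
      apply MvPolynomial.ringHom_ext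
      · intro c
        simp
      · intro i
        have h5 := pt_map (eval x) r q C X i
        simp only [eval_X] at h5
        simpa using h5
    exact RingHom.congr_fun h4 P
  rw [pt_ext, ← h2]
  exact hx

end Pool.Agent.BSI.H91
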